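import Mathlib

section

/-!
Non finitely generated abelian groups: the square has uncountably many subgroups.
-/

namespace Pool.Agent.Lib.MP_82c744_al

/-- Sequences from a choice on lists. -/
theorem exists_seq_list {α : Type*} (P : List α → α → Prop) (h : ∀ l, ∃ a, P l a) :
    ∃ f : ℕ → α, ∀ n, P ((List.range n).map f) (f n) := by
  choose c hc using h
  let L : ℕ → List α := fun n => Nat.rec [] (fun _ l => l ++ [c l]) n
  refine ⟨fun n => c (L n), fun n => ?_⟩
  have : (List.range n).map (fun n => c (L n)) = L n := by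
    induction n with
    | zero => rfl
    | succ n ih => rw [List.range_succ, List.map_append, ih]; rfl
  rw [this]; exact hc _

/-- Elements of `ℚ/ℤ` of the same order are multiples of each other. -/
theorem exists_zsmul_eq (u v : AddCircle (1 : ℚ)) (hv : IsOfFinAddOrder v)
    (h : ∀ n : ℕ, n • v = 0 → n • u = 0) : ∃ m : ℤ, u = m • v := by
  set n := addOrderOf v with hn
  have hn0 : 0 < n := hv.addOrderOf_pos
  obtain ⟨a, -, ha, hav⟩ := (AddCircle.addOrderOf_eq_pos_iff hn0).1 hn.symm
  have hu : n • u = 0 := h n (addOrderOf_nsmul_eq_zero v)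
  obtain ⟨b, -, hbu⟩ := (AddCircle.nsmul_eq_zero_iff hn0).1 hu
  rw [AddCircle.natCast_div_mul_eq_nsmul] at hav hbu
  set w : AddCircle (1 : ℚ) := ((1 / n : ℚ) : AddCircle (1 : ℚ)) with hw
  have hnw : (n : ℤ) • w = 0 := by
    rw [hw, natCast_zsmul, ← AddCircle.coe_nsmul]
    have h1 : (n : ℚ) ≠ 0 := by exact_mod_cast hn0.ne'
    have h2 : n • (1 / n : ℚ) = 1 := by
      rw [nsmul_eq_mul]; field_simp
    rw [h2]
    exact AddCircle.coe_period 1
  have hbez := Nat.gcd_eq_gcd_ab a n
  rw [ha] at hbez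
  have hwv : w = (a.gcdA n) • v := by
    have e0 : (1 : ℤ) = (a : ℤ) * a.gcdA n + n * a.gcdB n := by exact_mod_cast hbez
    have e1 : ((a : ℤ) * a.gcdA n) • w = (a.gcdA n) • v := by
      rw [mul_comm, mul_zsmul, natCast_zsmul, hav]
    have e2 : ((n : ℤ) * a.gcdB n) • w = 0 := by
      rw [mul_comm, mul_zsmul, hnw, smul_zero]
    calc w = (1 : ℤ) • w := (one_zsmul w).symm
      _ = ((a : ℤ) * a.gcdA n + n * a.gcdB n) • w := by rw [← e0]
      _ = (a.gcdA n) • v := by rw [add_zsmul, e1, e2, add_zero]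
  refine ⟨b * a.gcdA n, ?_⟩
  rw [← hbu, mul_zsmul, ← hwv, natCast_zsmul]

theorem isOfFin_rat (v : AddCircle (1 : ℚ)) : IsOfFinAddOrder v := by
  induction v using QuotientAddGroup.induction_on with
  | H a =>
    have := (AddCircle.isOfFinAddOrder_iff_exists_rat_eq_div (p := (1 : ℚ)) (a := a)).2
      ⟨a, by simp⟩
    exact this

/-- The characters attached to sets of indices. -/
theorem exists_chars (A : Type) [AddCommGroup A] (h : ¬ AddGroup.FG A) :
    ∃ (B : AddSubgroup A) (F : Set ℕ → (B →+ AddCircle (1 : ℚ))), Function.Injective F := by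
  classical
  obtain ⟨z, hz⟩ := exists_seq_list (fun (l : List A) a => a ∉ AddSubgroup.closure {x | x ∈ l}) (by
    intro l
    by_contra hcon
    push Not at hcon
    apply h
    rw [AddGroup.fg_iff]
    refine ⟨{x | x ∈ l}, ?_, l.finite_toSet⟩
    rw [eq_top_iff]
    intro x _
    exact hcon x)
  let A' : ℕ → AddSubgroup A := fun n => AddSubgroup.closure (z '' {i | i < n})
  have hz' : ∀ n, z n ∉ A' n := by
    intro n
    have : {x | x ∈ (List.range n).map z} = z '' {i | i < n} := by
      ext x; simp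
    have h2 := hz n
    rw [this] at h2
    exact h2
  have hmono : Monotone A' := by
    intro m n hmn
    apply AddSubgroup.closure_mono
    apply Set.image_mono
    intro i hi
    exact lt_of_lt_of_le hi hmn
  have hmem : ∀ i n, i < n → z i ∈ A' n := fun i n hin => AddSubgroup.subset_closure ⟨i, hin, rfl⟩
  have hchar : ∀ n, ∃ c : A →+ AddCircle (1 : ℚ), (∀ x ∈ A' n, c x = 0) ∧ c (z n) ≠ 0 := by
    intro n
    have h1 : (QuotientAddGroup.mk (z n) : A ⧸ A' n) ≠ 0 := by
      intro h2
      exact hz' n ((QuotientAddGroup.eq_zero_iff _).1 h2)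
    obtain ⟨c, hc⟩ := CharacterModule.exists_character_apply_ne_zero_of_ne_zero h1
    refine ⟨AddMonoidHom.comp c (QuotientAddGroup.mk' (A' n)), ?_, hc⟩
    intro x hx
    show c (QuotientAddGroup.mk x) = 0
    rw [(QuotientAddGroup.eq_zero_iff _).2 hx]
    exact map_zero c
  choose c hc0 hc1 using hchar
  let B : AddSubgroup A := ⨆ n, A' n
  have hB : ∀ x : B, ∃ n, (x : A) ∈ A' n := by
    intro x
    exact (AddSubgroup.mem_iSup_of_directed hmono.directed_le).1 x.2
  have hzero : ∀ (x : A) (n m : ℕ), x ∈ A' n → n ≤ m → c m x = 0 :=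
    fun x n m hx hnm => hc0 m x (hmono hnm hx)
  have hsupp : ∀ (S : Set ℕ) (x : B), (Function.support
      (fun n => if n ∈ S then c n (x : A) else 0)).Finite := by
    intro S x
    obtain ⟨n, hn⟩ := hB x
    refine (Set.finite_Iio n).subset ?_
    intro m hm
    by_contra hcon
    apply hm
    have : n ≤ m := not_lt.1 hcon
    simp [hzero x n m hn this]
  let F : Set ℕ → (B →+ AddCircle (1 : ℚ)) := fun S =>
    { toFun := fun x => ∑ᶠ n, if n ∈ S then c n (x : A) else 0
      map_zero' := by simp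
      map_add' := by
        intro x y
        rw [← finsum_add_distrib (hsupp S x) (hsupp S y)]
        congr 1
        funext n
        split_ifs <;> simp }
  have hFz : ∀ (S : Set ℕ) (n : ℕ) (hzn : z n ∈ B), F S ⟨z n, hzn⟩ =
      (∑ i ∈ Finset.range n, if i ∈ S then c i (z n) else 0) + (if n ∈ S then c n (z n) else 0) := by
    intro S n hzn
    show (∑ᶠ i, if i ∈ S then c i (z n) else 0) = _
    rw [← Finset.sum_range_succ (fun i => if i ∈ S then c i (z n) else 0)]
    apply finsum_eq_sum_of_support_subset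
    intro m hm
    simp only [Finset.coe_range, Set.mem_Iio]
    by_contra hcon
    apply hm
    have : n + 1 ≤ m := not_lt.1 hcon
    simp [hzero (z n) (n + 1) m (hmem n (n + 1) (Nat.lt_succ_self n)) this]
  refine ⟨B, F, ?_⟩
  intro S S' hSS
  ext n
  induction n using Nat.strong_induction_on with
  | _ n ih =>
    have hzn : z n ∈ B := (le_iSup A' (n + 1)) (hmem n (n + 1) (Nat.lt_succ_self n))
    have h1 := hFz S n hzn
    have h2 := hFz S' n hzn
    rw [hSS, h2] at h1
    have h3 : (∑ i ∈ Finset.range n, if i ∈ S then c i (z n) else 0) =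
        ∑ i ∈ Finset.range n, if i ∈ S' then c i (z n) else 0 := by
      apply Finset.sum_congr rfl
      intro i hi
      have := ih i (Finset.mem_range.1 hi)
      by_cases hS : i ∈ S
      · rw [if_pos hS, if_pos (this.1 hS)]
      · rw [if_neg hS, if_neg (fun h => hS (this.2 h))]
    rw [h3] at h1
    have h4 := add_left_cancel h1
    by_cases hS : n ∈ S <;> by_cases hS' : n ∈ S'
    · simp [hS, hS']
    · rw [if_pos hS, if_neg hS'] at h4
      exact absurd h4.symm (hc1 n)
    · rw [if_neg hS, if_pos hS'] at h4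
      exact absurd h4 (hc1 n)
    · simp [hS, hS']

/-- An abelian group with countably many subgroups in its square is finitely generated. -/
theorem fg_of_countable (A : Type) [AddCommGroup A] (h1 : Countable (AddSubgroup A))
    (h2 : Countable (AddSubgroup (A × A))) : AddGroup.FG A := by
  classical
  by_contra hcon
  obtain ⟨B, F, hF⟩ := exists_chars A hcon
  let k : Set ℕ → AddSubgroup A := fun S => (F S).ker.map B.subtype
  let S0 : AddSubgroup A → Set ℕ := fun K => if h : ∃ S, k S = K then h.choose else ∅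
  have hS0 : ∀ S, k (S0 (k S)) = k S := by
    intro S
    have h : ∃ S', k S' = k S := ⟨S, rfl⟩
    simp only [S0]
    rw [dif_pos h]
    exact h.choose_spec
  let Gr : Set ℕ → AddSubgroup (A × A) := fun S =>
    (((F S).comp (AddMonoidHom.fst B B) - (F (S0 (k S))).comp (AddMonoidHom.snd B B)).ker).map
      (AddMonoidHom.prodMap B.subtype B.subtype)
  have hker : ∀ S S', k S = k S' → ∀ x, F S x = 0 → F S' x = 0 := by
    intro S S' hk x hx
    have h3 : (x : A) ∈ k S := ⟨x, hx, rfl⟩
    rw [hk] at h3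
    obtain ⟨y, hy, hyx⟩ := h3
    have : y = x := Subtype.ext hyx
    rw [← this]; exact hy
  have hGr : ∀ S (x y : B), ((x : A), (y : A)) ∈ Gr S ↔ F S x = F (S0 (k S)) y := by
    intro S x y
    constructor
    · rintro ⟨⟨x', y'⟩, hxy, h3⟩
      have h4 : x' = x := Subtype.ext (congrArg Prod.fst h3)
      have h5 : y' = y := Subtype.ext (congrArg Prod.snd h3)
      subst h4; subst h5
      exact sub_eq_zero.1 hxy
    · intro h3
      exact ⟨(x, y), sub_eq_zero.2 h3, rfl⟩
  have hinj : Function.Injective (fun S => (k S, Gr S)) := by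
    intro S S' hSS
    have e1 : k S = k S' := congrArg Prod.fst hSS
    have e2 : Gr S = Gr S' := congrArg Prod.snd hSS
    apply hF
    ext x
    obtain ⟨m, hm⟩ := exists_zsmul_eq (F S x) (F (S0 (k S)) x) (isOfFin_rat _) (by
      intro n hn
      rw [← map_nsmul] at hn ⊢
      exact hker _ _ (hS0 S) _ hn)
    have h3 : ((x : A), ((m • x : B) : A)) ∈ Gr S := by
      rw [hGr, hm, map_zsmul]
    rw [e2, hGr, ← e1] at h3
    rw [h3, map_zsmul, hm]
  have : Countable (Set ℕ) := hinj.countable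
  obtain ⟨f, hf⟩ := exists_surjective_nat (Set ℕ)
  exact Function.cantor_surjective f hf

end Pool.Agent.Lib.MP_82c744_al
end

section

/-!
Small varieties: finitely generated groups have countably many normal subgroups; central sections.
-/

namespace Pool.Agent.Lib.MP_82c744_al

open scoped commutatorElement

/-- every law of `G` is a law of `H` -/
def Laws (G H : Type) [Group G] [Group H] : Prop :=
  ∀ w : FreeGroup ℕ, (∀ f : FreeGroup ℕ →* G, f w = 1) → ∀ f : FreeGroup ℕ →* H, f w = 1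

/-- the variety generated by `G` is small -/
def Small (G : Type) [Group G] : Prop :=
  ∃ (T : ℕ → Type) (_ : ∀ n, Group (T n)), ∀ (H : Type) [Group H], Group.FG H →
    Laws G H → ∃ n, Nonempty (H ≃* T n)

theorem Laws.trans {G H K : Type} [Group G] [Group H] [Group K] (h1 : Laws G H) (h2 : Laws H K) :
    Laws G K := fun w hw => h2 w (h1 w hw)

theorem Laws.refl (G : Type) [Group G] : Laws G G := fun _ hw => hw

theorem Small.of_laws {G H : Type} [Group G] [Group H] (hs : Small G) (h : Laws G H) : Small H := by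
  obtain ⟨T, iT, hT⟩ := hs
  exact ⟨T, iT, fun K _ hK hHK => hT K hK (h.trans hHK)⟩

theorem Laws.subgroup {G : Type} [Group G] (H : Subgroup G) : Laws G H := by
  intro w hw f
  apply H.subtype_injective
  exact hw (H.subtype.comp f)

theorem Laws.prod {G : Type} [Group G] : Laws G (G × G) := by
  intro w hw f
  apply Prod.ext
  · exact hw ((MonoidHom.fst G G).comp f)
  · exact hw ((MonoidHom.snd G G).comp f)

theorem Laws.pi {G : Type} [Group G] (I : Type) : Laws G (I → G) := by
  intro w hw f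
  funext i
  exact hw ((Pi.evalMonoidHom _ i).comp f)

theorem Laws.of_surjective {G H : Type} [Group G] [Group H] (π : G →* H)
    (hπ : Function.Surjective π) : Laws G H := by
  intro w hw f
  choose s hs using fun n : ℕ => hπ (f (FreeGroup.of n))
  have : f = π.comp (FreeGroup.lift s) := by
    ext n
    simp [hs]
  rw [this]
  show π (FreeGroup.lift s w) = 1
  rw [hw, map_one]

theorem countable_of_fg (H : Type) [Group H] (hH : Group.FG H) : Countable H := by
  obtain ⟨S, hS, hfin⟩ := Group.fg_iff.1 hH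
  have hfin' : Finite S := hfin
  have hc : Countable S := inferInstance
  let π : FreeGroup S →* H := FreeGroup.lift fun i => (i : H)
  have hπ : Function.Surjective π := by
    rw [← MonoidHom.range_eq_top, eq_top_iff, ← hS, Subgroup.closure_le]
    intro s hs
    exact ⟨FreeGroup.of ⟨s, hs⟩, by simp [π]⟩
  exact hπ.countable

/-- In a small variety every finitely generated group has countably many normal subgroups. -/
theorem Small.countable_normal {G H : Type} [Group G] [Group H] (hs : Small G) (hH : Group.FG H)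
    (h : Laws G H) : Countable {N : Subgroup H // N.Normal} := by
  classical
  obtain ⟨T, iT, hT⟩ := hs
  obtain ⟨S, hS, hfin⟩ := Group.fg_iff.1 hH
  have hfin' : Finite S := hfin
  have hcH := countable_of_fg H hH
  have key : ∀ N : {N : Subgroup H // N.Normal}, ∃ (n : {n : ℕ // Countable (T n)})
      (f : H →* T n), f.ker = N := by
    rintro ⟨N, hN⟩
    have h1 : Group.FG (H ⧸ N) := Group.fg_of_surjective (QuotientGroup.mk'_surjective N)
    have h2 : Laws G (H ⧸ N) := h.trans (Laws.of_surjective (QuotientGroup.mk' N)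
      (QuotientGroup.mk'_surjective N))
    obtain ⟨n, ⟨e⟩⟩ := hT (H ⧸ N) h1 h2
    have h4 : Countable (H ⧸ N) := (QuotientGroup.mk'_surjective N).countable
    have h3 : Countable (T n) := e.symm.injective.countable
    refine ⟨⟨n, h3⟩, e.toMonoidHom.comp (QuotientGroup.mk' N), ?_⟩
    ext x
    rw [MonoidHom.mem_ker]
    show e (QuotientGroup.mk x) = 1 ↔ x ∈ N
    rw [map_eq_one_iff _ e.injective, QuotientGroup.eq_one_iff]
  choose n f hf using key
  have hcount : ∀ n : {n : ℕ // Countable (T n)}, Countable (S → T n) := by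
    intro n
    have := n.2
    infer_instance
  have hinj : Function.Injective (fun N : {N : Subgroup H // N.Normal} =>
      (⟨n N, fun s => f N s⟩ : Σ n : {n : ℕ // Countable (T n)}, (S → T n))) := by
    intro N N' hNN
    have aux : ∀ (a b : {n : ℕ // Countable (T n)}) (f1 : H →* T a) (f2 : H →* T b),
        (⟨a, fun s => f1 s⟩ : Σ n : {n : ℕ // Countable (T n)}, (S → T n)) =
          ⟨b, fun s => f2 s⟩ → f1.ker = f2.ker := by
      intro a b f1 f2 hab
      obtain rfl : a = b := congrArg Sigma.fst hab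
      have h4 : (fun s : S => f1 s) = fun s : S => f2 s := by
        simpa using hab
      have h5 : f1 = f2 := by
        apply MonoidHom.eq_of_eqOn_dense hS
        intro s hs
        exact congrFun h4 ⟨s, hs⟩
      rw [h5]
    have := aux _ _ _ _ hNN
    rw [hf, hf] at this
    exact Subtype.ext this
  exact hinj.countable

/-- Central subgroups of finitely generated groups in a small variety are finitely generated. -/
theorem Small.central_fg {G D : Type} [Group G] [Group D] (hs : Small G) (hD : Group.FG D)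
    (h : Laws G D) (Z : Subgroup D) (hZ : Z ≤ Subgroup.center D) : Group.FG Z := by
  have h0 : Countable {N : Subgroup (D × D) // N.Normal} :=
    hs.countable_normal (H := D × D) inferInstance (h.trans Laws.prod)
  have hc : ∀ a b : Z, a * b = b * a := by
    intro a b
    apply Subtype.ext
    exact (Subgroup.mem_center_iff.1 (hZ a.2) b).symm
  let _ : CommGroup Z := { (inferInstance : Group Z) with mul_comm := hc }
  let j : Z × Z →* D × D := MonoidHom.prodMap Z.subtype Z.subtype
  have hj : Function.Injective j := by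
    intro a b hab
    apply Prod.ext
    · exact Subtype.ext (congrArg Prod.fst hab)
    · exact Subtype.ext (congrArg Prod.snd hab)
  have h2 : Countable (Subgroup (Z × Z)) := by
    let Φ : Subgroup (Z × Z) → {N : Subgroup (D × D) // N.Normal} := fun B => ⟨B.map j, by
      constructor
      rintro _ ⟨b, hb, rfl⟩ g
      have : g * j b * g⁻¹ = j b := by
        have h3 : g * j b = j b * g := by
          apply Prod.ext
          · exact Subgroup.mem_center_iff.1 (hZ b.1.2) g.1
          · exact Subgroup.mem_center_iff.1 (hZ b.2.2) g.2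
        rw [h3]; group
      rw [this]
      exact ⟨b, hb, rfl⟩⟩
    have : Function.Injective Φ := by
      intro B B' hBB
      exact Subgroup.map_injective hj (congrArg Subtype.val hBB)
    exact this.countable
  have h1 : Countable (Subgroup Z) := by
    have : Function.Injective (fun B : Subgroup Z => B.map (MonoidHom.inl Z Z)) :=
      Subgroup.map_injective (fun a b hab => congrArg Prod.fst hab)
    exact this.countable
  have h3 : AddGroup.FG (Additive Z) := by
    apply fg_of_countable (Additive Z)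
    · exact (AddSubgroup.toSubgroup'.injective.countable : Countable (AddSubgroup (Additive Z)))
    · have : Countable (AddSubgroup (Additive (Z × Z))) :=
        (AddSubgroup.toSubgroup'.injective.countable)
      exact this
  exact GroupFG.iff_add_fg.2 h3

/-- Central sections of finitely generated groups in a small variety are finitely generated. -/
theorem Small.central_section {G D : Type} [Group G] [Group D] (hs : Small G) (hD : Group.FG D)
    (h : Laws G D) (K L : Subgroup D) [L.Normal] (hKL : ∀ x ∈ K, ∀ g, ⁅x, g⁆ ∈ L) :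
    ∃ X : Set D, X.Finite ∧ X ⊆ K ∧ K ≤ L ⊔ Subgroup.closure X := by
  classical
  let D' := D ⧸ L
  let π := QuotientGroup.mk' L
  have hD' : Group.FG D' := Group.fg_of_surjective (QuotientGroup.mk'_surjective L)
  have h' : Laws G D' := h.trans (Laws.of_surjective π (QuotientGroup.mk'_surjective L))
  have hZ : K.map π ≤ Subgroup.center D' := by
    rintro _ ⟨x, hx, rfl⟩
    rw [Subgroup.mem_center_iff]
    intro y
    obtain ⟨g, rfl⟩ := QuotientGroup.mk'_surjective L y
    have h1 : ⁅π x, π g⁆ = 1 := by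
      rw [← map_commutatorElement]
      exact (QuotientGroup.eq_one_iff _).2 (hKL x hx g)
    exact (commutatorElement_eq_one_iff_mul_comm.1 h1).symm
  have hfg := hs.central_fg hD' h' _ hZ
  rw [Group.fg_iff_subgroup_fg, Subgroup.fg_iff] at hfg
  obtain ⟨Y, hY, hYfin⟩ := hfg
  have hYK : ∀ y ∈ Y, ∃ x ∈ K, π x = y := by
    intro y hy
    have : y ∈ K.map π := by rw [← hY]; exact Subgroup.subset_closure hy
    exact this
  choose! s hsK hsπ using hYK
  refine ⟨s '' Y, hYfin.image s, ?_, ?_⟩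
  · rintro _ ⟨y, hy, rfl⟩
    exact hsK y hy
  · intro x hx
    have h1 : π x ∈ (Subgroup.closure (s '' Y)).map π := by
      rw [MonoidHom.map_closure]
      have h2 : π '' (s '' Y) = Y := by
        ext y
        constructor
        · rintro ⟨_, ⟨z, hz, rfl⟩, rfl⟩
          rw [hsπ z hz]; exact hz
        · intro hy
          exact ⟨s y, ⟨y, hy, rfl⟩, hsπ y hy⟩
      rw [h2, hY]
      exact ⟨x, hx, rfl⟩
    obtain ⟨y, hy, hyx⟩ := h1
    have h3 : y⁻¹ * x ∈ L := QuotientGroup.eq.1 hyx
    have h4 : x = y * (y⁻¹ * x) := by group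
    rw [h4]
    exact Subgroup.mul_mem _ (Subgroup.mem_sup_right hy) (Subgroup.mem_sup_left h3)

end Pool.Agent.Lib.MP_82c744_al
end

section

/-!
The diagonal construction inside a Cartesian power.
-/

namespace Pool.Agent.Lib.MP_82c744_al

open scoped commutatorElement

/-- Normal subgroups. -/
abbrev NS (G : Type) [Group G] : Type := {N : Subgroup G // N.Normal}

theorem comm_mul_left' {G : Type} [Group G] (a b y : G) : ⁅a * b, y⁆ = a * ⁅b, y⁆ * a⁻¹ * ⁅a, y⁆ := by
  simp only [commutatorElement_def]; group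

theorem comm_inv_left' {G : Type} [Group G] (a y : G) : ⁅a⁻¹, y⁆ = a⁻¹ * ⁅a, y⁆⁻¹ * a⁻¹⁻¹ := by
  simp only [commutatorElement_def]; group

/-- The elements whose commutators with all conjugates of `u` lie in `M`. -/
def czs {G : Type} [Group G] (u : G) (M : NS G) : NS G :=
  ⟨{ carrier := {x | ∀ g, ⁅x, g * u * g⁻¹⁆ ∈ M.1}
     one_mem' := by intro g; rw [commutatorElement_one_left]; exact M.1.one_mem
     mul_mem' := by
       intro a b ha hb g
       rw [comm_mul_left']
       exact M.1.mul_mem (M.2.conj_mem _ (hb g) a) (ha g)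
     inv_mem' := by
       intro a ha g
       rw [comm_inv_left']
       exact M.2.conj_mem _ (M.1.inv_mem (ha g)) a⁻¹ },
   by
    constructor
    intro a ha h g
    have h1 := M.2.conj_mem _ (ha (h⁻¹ * g)) h
    have h2 : h * ⁅a, h⁻¹ * g * u * (h⁻¹ * g)⁻¹⁆ * h⁻¹ = ⁅h * a * h⁻¹, g * u * g⁻¹⁆ := by
      simp only [commutatorElement_def]; group
    rw [← h2]; exact h1⟩

/-- The iterated version. -/
def cz {G : Type} [Group G] (us : List G) (L : NS G) : NS G := us.foldr czs L

theorem mem_cz_cons {G : Type} [Group G] (u : G) (us : List G) (L : NS G) (x : G) :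
    x ∈ (cz (u :: us) L).1 ↔ ∀ g, ⁅x, g * u * g⁻¹⁆ ∈ (cz us L).1 := Iff.rfl

theorem mem_cz_nil {G : Type} [Group G] (L : NS G) (x : G) :
    x ∈ (cz [] L).1 ↔ x ∈ L.1 := Iff.rfl

theorem cz_mono {G : Type} [Group G] (us : List G) {L L' : NS G} (h : L.1 ≤ L'.1) :
    (cz us L).1 ≤ (cz us L').1 := by
  induction us with
  | nil => exact h
  | cons u us ih =>
    intro x hx
    rw [mem_cz_cons] at hx ⊢
    exact fun g => ih (hx g)

theorem le_cz {G : Type} [Group G] (us : List G) (L : NS G) : L.1 ≤ (cz us L).1 := by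
  induction us with
  | nil => exact le_rfl
  | cons u us ih =>
    intro x hx
    rw [mem_cz_cons]
    intro g
    apply ih
    have h1 := L.1.mul_mem hx (L.2.conj_mem _ (L.1.inv_mem hx) (g * u * g⁻¹))
    have h2 : x * (g * u * g⁻¹ * x⁻¹ * (g * u * g⁻¹)⁻¹) = ⁅x, g * u * g⁻¹⁆ := by
      simp only [commutatorElement_def]; group
    rw [← h2]; exact h1

/-- The normal closure attached to a list. -/
def ncl {G : Type} [Group G] {N : Subgroup G} (l : List (G × N)) : NS G :=
  ⟨Subgroup.normalClosure {y | ∃ p ∈ l, ((p.2 : N) : G) = y}, inferInstance⟩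

theorem trick {G0 G : Type} [Group G0] [Group G] (hs : Small G0) (hG : Group.FG G)
    (h : Laws G0 G) (N : Subgroup G) : ∃ l : List (G × N), ∀ t : G, ∀ x ∈ N,
      x ∈ (cz (l.map (fun p => t * p.1⁻¹)) (ncl l)).1 := by
  classical
  by_contra hcon
  push Not at hcon
  obtain ⟨f, hf⟩ := exists_seq_list (fun (l : List (G × N)) (a : G × N) =>
      (a.2 : G) ∉ (cz (l.map (fun p => a.1 * p.1⁻¹)) (ncl l)).1) (by
    intro l
    obtain ⟨t, x, hx, hxt⟩ := hcon l
    exact ⟨(t, ⟨x, hx⟩), hxt⟩)
  let t : ℕ → G := fun n => (f n).1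
  let x : ℕ → G := fun n => ((f n).2 : G)
  let L : ℕ → NS G := fun n => ncl ((List.range n).map f)
  let us : ℕ → List G := fun m => (List.range m).map (fun i => t m * (t i)⁻¹)
  have hf' : ∀ m, x m ∉ (cz (us m) (L m)).1 := by
    intro m
    have h1 := hf m
    have h2 : ((List.range m).map f).map (fun p => (f m).1 * p.1⁻¹) = us m := by
      simp only [us, List.map_map]
      rfl
    rw [h2] at h1
    exact h1
  have hxL : ∀ i n, i < n → x i ∈ (L n).1 := by
    intro i n hin
    apply Subgroup.subset_normalClosure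
    exact ⟨f i, List.mem_map.2 ⟨i, List.mem_range.2 hin, rfl⟩, rfl⟩
  obtain ⟨X, hX, hXfin⟩ := Group.fg_iff.1 hG
  let Δ : G →* (ℕ → G) := MonoidHom.pi fun _ => MonoidHom.id G
  have hΔ : ∀ g j, Δ g j = g := fun _ _ => rfl
  let H : Subgroup (ℕ → G) := Subgroup.closure (Δ '' X ∪ {t})
  have hΔH : ∀ g, Δ g ∈ H := by
    have h1 : (⊤ : Subgroup G) ≤ H.comap Δ := by
      rw [← hX, Subgroup.closure_le]
      intro g hg
      exact Subgroup.subset_closure (Or.inl ⟨g, hg, rfl⟩)
    intro g
    exact h1 (Subgroup.mem_top g)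
  have htH : t ∈ H := Subgroup.subset_closure (Or.inr rfl)
  have hHfg : Group.FG H := by
    rw [Group.fg_iff_subgroup_fg, Subgroup.fg_iff]
    exact ⟨_, rfl, (hXfin.image Δ).union (Set.finite_singleton t)⟩
  have key : ∀ m k, k ≤ m → ∃ y ∈ H, (∀ j, m < j → y j ∈ (L j).1) ∧
      (∀ j, j < k → y j ∈ (L j).1) ∧ y m ∉ (cz ((us m).drop k) (L m)).1 := by
    intro m k
    induction k with
    | zero =>
      intro _
      refine ⟨Δ (x m), hΔH _, ?_, ?_, ?_⟩
      · intro j hj
        exact hxL m j hj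
      · intro j hj
        exact absurd hj (Nat.not_lt_zero j)
      · exact hf' m
    | succ k ih =>
      intro hk
      obtain ⟨y, hyH, hy1, hy2, hy3⟩ := ih (by omega)
      have hlen : k < (us m).length := by simp [us]; omega
      have h1 : (us m).drop k = (t m * (t k)⁻¹) :: (us m).drop (k + 1) := by
        rw [List.drop_eq_getElem_cons hlen]
        simp [us]
      rw [h1, mem_cz_cons] at hy3
      push Not at hy3
      obtain ⟨g, hg⟩ := hy3
      refine ⟨⁅y, Δ g * (t * (Δ (t k))⁻¹) * (Δ g)⁻¹⁆, ?_, ?_, ?_, ?_⟩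
      · rw [commutatorElement_def]
        have h2 : Δ g * (t * (Δ (t k))⁻¹) * (Δ g)⁻¹ ∈ H :=
          H.mul_mem (H.mul_mem (hΔH g) (H.mul_mem htH (H.inv_mem (hΔH _)))) (H.inv_mem (hΔH g))
        exact H.mul_mem (H.mul_mem (H.mul_mem hyH h2) (H.inv_mem hyH)) (H.inv_mem h2)
      · intro j hj
        have h3 := (L j).1.mul_mem (hy1 j hj) ((L j).2.conj_mem _ ((L j).1.inv_mem (hy1 j hj))
          (g * (t j * (t k)⁻¹) * g⁻¹))
        have h4 : ⁅y, Δ g * (t * (Δ (t k))⁻¹) * (Δ g)⁻¹⁆ j = y j *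
          (g * (t j * (t k)⁻¹) * g⁻¹ * (y j)⁻¹ * (g * (t j * (t k)⁻¹) * g⁻¹)⁻¹) := by
          show y j * (g * (t j * (t k)⁻¹) * g⁻¹) * (y j)⁻¹ * (g * (t j * (t k)⁻¹) * g⁻¹)⁻¹ = _
          group
        rw [h4]; exact h3
      · intro j hj
        rcases Nat.lt_succ_iff_lt_or_eq.1 hj with hj | rfl
        · have h3 := (L j).1.mul_mem (hy2 j hj) ((L j).2.conj_mem _ ((L j).1.inv_mem (hy2 j hj))
            (g * (t j * (t k)⁻¹) * g⁻¹))
          have h4 : ⁅y, Δ g * (t * (Δ (t k))⁻¹) * (Δ g)⁻¹⁆ j = y j *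
            (g * (t j * (t k)⁻¹) * g⁻¹ * (y j)⁻¹ * (g * (t j * (t k)⁻¹) * g⁻¹)⁻¹) := by
            show y j * (g * (t j * (t k)⁻¹) * g⁻¹) * (y j)⁻¹ * (g * (t j * (t k)⁻¹) * g⁻¹)⁻¹ = _
            group
          rw [h4]; exact h3
        · have h4 : ⁅y, Δ g * (t * (Δ (t j))⁻¹) * (Δ g)⁻¹⁆ j = 1 := by
            show y j * (g * (t j * (t j)⁻¹) * g⁻¹) * (y j)⁻¹ * (g * (t j * (t j)⁻¹) * g⁻¹)⁻¹ = 1
            group
          rw [h4]; exact (L j).1.one_mem
      · exact hg
  have hsep : ∀ m, ∃ y ∈ H, (∀ j, j ≠ m → y j ∈ (L j).1) ∧ y m ∉ (L m).1 := by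
    intro m
    obtain ⟨y, hyH, hy1, hy2, hy3⟩ := key m m le_rfl
    refine ⟨y, hyH, ?_, ?_⟩
    · intro j hj
      rcases lt_or_gt_of_ne hj with hj | hj
      · exact hy2 j hj
      · exact hy1 j hj
    · have h1 : (us m).drop m = [] := by
        apply List.drop_eq_nil_of_le
        simp [us]
      rw [h1] at hy3
      exact hy3
  let Φ : Set ℕ → {M : Subgroup H // M.Normal} := fun S =>
    ⟨{ carrier := {y | ∀ j, j ∉ S → (y : ℕ → G) j ∈ (L j).1}
       one_mem' := fun j _ => (L j).1.one_mem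
       mul_mem' := fun {a b} ha hb j hj => (L j).1.mul_mem (ha j hj) (hb j hj)
       inv_mem' := fun {a} ha j hj => (L j).1.inv_mem (ha j hj) },
      ⟨fun a ha g j hj => (L j).2.conj_mem _ (ha j hj) _⟩⟩
  have hΦ : Function.Injective Φ := by
    intro S S' hSS
    have hmem : ∀ (S : Set ℕ) (y : H), y ∈ (Φ S).1 ↔ ∀ j, j ∉ S → (y : ℕ → G) j ∈ (L j).1 :=
      fun _ _ => Iff.rfl
    ext m
    obtain ⟨y, hyH, hy1, hy2⟩ := hsep m
    have h1 : ∀ S : Set ℕ, (⟨y, hyH⟩ : H) ∈ (Φ S).1 ↔ m ∈ S := by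
      intro S
      rw [hmem]
      constructor
      · intro h2
        by_contra hm
        exact hy2 (h2 m hm)
      · intro hm j hj
        exact hy1 j (fun hjm => hj (hjm ▸ hm))
    rw [← h1 S, ← h1 S', hSS]
  have hcount := hs.countable_normal hHfg ((h.trans (Laws.pi ℕ)).trans (Laws.subgroup H))
  have h5 : Countable (Set ℕ) := hΦ.countable
  obtain ⟨f, hf⟩ := exists_surjective_nat (Set ℕ)
  exact Function.cantor_surjective f hf

end Pool.Agent.Lib.MP_82c744_al
end

section

/-!
Non finitely generated sections and the final argument.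
-/

namespace Pool.Agent.Lib.MP_82c744_al

open scoped commutatorElement

variable {G : Type} [Group G]

/-- `K` is not finitely generated, as a normal subgroup, modulo `L`. -/
def Bad (K L : NS G) : Prop :=
  L.1 ≤ K.1 ∧ ∀ X : Set G, X.Finite → X ⊆ K.1 → ¬ K.1 ≤ L.1 ⊔ Subgroup.normalClosure X

theorem bad_split {K J L : NS G} (hLJ : L.1 ≤ J.1) (hJK : J.1 ≤ K.1) (h : Bad K L) :
    Bad K J ∨ Bad J L := by
  by_contra hcon
  push Not at hcon
  obtain ⟨h1, h2⟩ := hcon
  simp only [Bad, not_and, not_forall] at h1 h2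
  obtain ⟨X, hXfin, hXK, hX⟩ := h1 hJK
  obtain ⟨Y, hYfin, hYJ, hY⟩ := h2 hLJ
  rw [not_not] at hX hY
  refine h.2 (X ∪ Y) (hXfin.union hYfin) (Set.union_subset hXK (hYJ.trans hJK)) ?_
  refine hX.trans (sup_le (hY.trans (sup_le le_sup_left ?_)) ?_)
  · exact (Subgroup.normalClosure_mono Set.subset_union_right).trans le_sup_right
  · exact (Subgroup.normalClosure_mono Set.subset_union_left).trans le_sup_right

theorem bad_kill (us : List G) (L : NS G) : ∀ K : NS G, Bad K L → K.1 ≤ (cz us L).1 →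
    ∃ u ∈ us, ∃ K' L' : NS G, Bad K' L' ∧ L.1 ≤ L'.1 ∧ K'.1 ≤ K.1 ∧
      ∀ x ∈ K'.1, ∀ g, ⁅x, g * u * g⁻¹⁆ ∈ L'.1 := by
  induction us with
  | nil =>
    intro K hb hK
    exfalso
    refine hb.2 ∅ Set.finite_empty (Set.empty_subset _) ?_
    exact hK.trans le_sup_left
  | cons u us ih =>
    intro K hb hK
    have hK2 := K.2
    have hC2 := (cz us L).2
    let J : NS G := ⟨K.1 ⊓ (cz us L).1, inferInstance⟩
    have hLJ : L.1 ≤ J.1 := le_inf hb.1 (le_cz us L)
    have hJK : J.1 ≤ K.1 := inf_le_left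
    rcases bad_split hLJ hJK hb with h1 | h1
    · refine ⟨u, List.mem_cons_self, K, J, h1, hLJ, le_rfl, ?_⟩
      intro x hx g
      refine ⟨?_, hK hx g⟩
      have h2 := K.1.mul_mem hx (K.2.conj_mem _ (K.1.inv_mem hx) (g * u * g⁻¹))
      have h3 : x * (g * u * g⁻¹ * x⁻¹ * (g * u * g⁻¹)⁻¹) = ⁅x, g * u * g⁻¹⁆ := by
        simp only [commutatorElement_def]; group
      rw [← h3]; exact h2
    · obtain ⟨v, hv, K', L', hb', hL', hK', hx⟩ := ih J h1 inf_le_right
      exact ⟨v, List.mem_cons_of_mem _ hv, K', L', hb', hL', hK'.trans hJK, hx⟩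

theorem bad_list (ts : List G) (K L : NS G) (hb : Bad K L)
    (hP : ∀ t : G, K.1 ≤ (cz (ts.map fun s => t * s⁻¹) L).1) (ss : List G) :
    ∃ K' L' : NS G, Bad K' L' ∧ L.1 ≤ L'.1 ∧ K'.1 ≤ K.1 ∧
      ∀ s ∈ ss, ∃ u ∈ ts, ∀ x ∈ K'.1, ∀ g, ⁅x, g * (s * u⁻¹) * g⁻¹⁆ ∈ L'.1 := by
  induction ss with
  | nil => exact ⟨K, L, hb, le_rfl, le_rfl, fun s hs => absurd hs List.not_mem_nil⟩
  | cons s ss ih =>
    obtain ⟨K', L', hb', hL', hK', hs⟩ := ih
    obtain ⟨u, hu, K'', L'', hb'', hL'', hK'', hx⟩ := bad_kill (ts.map fun v => s * v⁻¹) L' K' hb'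
      (hK'.trans ((hP s).trans (cz_mono _ hL')))
    obtain ⟨v, hv, rfl⟩ := List.mem_map.1 hu
    refine ⟨K'', L'', hb'', hL'.trans hL'', hK''.trans hK', ?_⟩
    intro s' hs'
    rcases List.mem_cons.1 hs' with rfl | hs'
    · exact ⟨v, hv, hx⟩
    · obtain ⟨w, hw, hw'⟩ := hs s' hs'
      exact ⟨w, hw, fun x hx' g => hL'' (hw' x (hK'' hx') g)⟩

/-- The centralizer of a section. -/
def Cen (K L : NS G) : Subgroup G where
  carrier := {c | ∀ x ∈ K.1, ⁅x, c⁆ ∈ L.1}
  one_mem' := by intro x _; rw [commutatorElement_one_right]; exact L.1.one_mem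
  mul_mem' := by
    intro a b ha hb x hx
    have h1 := L.1.mul_mem (ha x hx) (L.2.conj_mem _ (hb x hx) a)
    have h2 : ⁅x, a⁆ * (a * ⁅x, b⁆ * a⁻¹) = ⁅x, a * b⁆ := by
      simp only [commutatorElement_def]; group
    rw [← h2]; exact h1
  inv_mem' := by
    intro a ha x hx
    have h1 := L.2.conj_mem _ (L.1.inv_mem (ha x hx)) a⁻¹
    have h2 : a⁻¹ * ⁅x, a⁆⁻¹ * a⁻¹⁻¹ = ⁅x, a⁻¹⁆ := by
      simp only [commutatorElement_def]; group
    rw [← h2]; exact h1

theorem mem_Cen {K L : NS G} {c : G} : c ∈ Cen K L ↔ ∀ x ∈ K.1, ⁅x, c⁆ ∈ L.1 := Iff.rfl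

instance Cen_normal (K L : NS G) : (Cen K L).Normal := by
  constructor
  intro c hc g x hx
  have h1 := L.2.conj_mem _ (hc _ (K.2.conj_mem x hx g⁻¹)) g
  have h2 : g * ⁅g⁻¹ * x * g⁻¹⁻¹, c⁆ * g⁻¹ = ⁅x, g * c * g⁻¹⁆ := by
    simp only [commutatorElement_def]; group
  rw [← h2]; exact h1

theorem finite_quotient (C : Subgroup G) [C.Normal] (X : Set G) (hX : Subgroup.closure X = ⊤)
    (ts : List G) (h1 : ∃ u ∈ ts, (1 : G) * u⁻¹ ∈ C)
    (h2 : ∀ x ∈ X ∪ X⁻¹, ∀ t ∈ ts, ∃ u ∈ ts, x * t * u⁻¹ ∈ C) : Finite (G ⧸ C) := by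
  have hall : ∀ g : G, ∃ u ∈ ts, g * u⁻¹ ∈ C := by
    intro g
    have hg : g ∈ Submonoid.closure (X ∪ X⁻¹) := by
      rw [← Subgroup.closure_toSubmonoid, hX]
      exact Subgroup.mem_top g
    induction hg using Submonoid.closure_induction_left with
    | one => exact h1
    | mul_left x hx y hy ih =>
      obtain ⟨t, ht, hyt⟩ := ih
      obtain ⟨u, hu, hxu⟩ := h2 x hx t ht
      refine ⟨u, hu, ?_⟩
      have h3 := C.mul_mem (‹C.Normal›.conj_mem _ hyt x) hxu
      have h4 : x * (y * t⁻¹) * x⁻¹ * (x * t * u⁻¹) = x * y * u⁻¹ := by group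
      rw [← h4]; exact h3
  have hsurj : Function.Surjective (fun u : {u // u ∈ ts} => (QuotientGroup.mk (u : G) : G ⧸ C)) := by
    intro q
    obtain ⟨g, rfl⟩ := QuotientGroup.mk_surjective q
    obtain ⟨u, hu, hgu⟩ := hall g
    refine ⟨⟨u, hu⟩, ?_⟩
    have h3 : (QuotientGroup.mk (g * u⁻¹) : G ⧸ C) = 1 := (QuotientGroup.eq_one_iff _).2 hgu
    rw [QuotientGroup.mk_mul, QuotientGroup.mk_inv] at h3
    exact (mul_inv_eq_one.1 h3).symm
  have : Finite {u // u ∈ ts} := ts.finite_toSet
  exact Finite.of_surjective _ hsurj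

/-- In a small variety every finitely generated group has max-n. -/
theorem max_n {G0 : Type} [Group G0] (hs : Small G0) (hG : Group.FG G) (h : Laws G0 G)
    (N : Subgroup G) (hN : N.Normal) :
    ∃ X : Set G, X.Finite ∧ X ⊆ N ∧ N ≤ Subgroup.normalClosure X := by
  classical
  by_contra hcon
  push Not at hcon
  obtain ⟨l, hl⟩ := trick hs hG h N
  have hncl : (ncl l).1 ≤ N := by
    apply Subgroup.normalClosure_le_normal
    rintro y ⟨p, _, rfl⟩
    exact p.2.2
  have hb : Bad ⟨N, hN⟩ (ncl l) := by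
    refine ⟨hncl, ?_⟩
    intro X hX hXN hle
    have hfin : ({y | ∃ p ∈ l, ((p.2 : N) : G) = y} : Set G).Finite := by
      have : ({y | ∃ p ∈ l, ((p.2 : N) : G) = y} : Set G) =
          (fun p : G × N => (p.2 : G)) '' {p | p ∈ l} := by
        ext y; rfl
      rw [this]
      exact l.finite_toSet.image _
    refine hcon ({y | ∃ p ∈ l, ((p.2 : N) : G) = y} ∪ X) (hfin.union hX) ?_ ?_
    · refine Set.union_subset ?_ hXN
      rintro y ⟨p, _, rfl⟩
      exact p.2.2
    · refine hle.trans (sup_le ?_ ?_)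
      · exact Subgroup.normalClosure_mono Set.subset_union_left
      · exact Subgroup.normalClosure_mono Set.subset_union_right
  obtain ⟨X, hX, hXfin⟩ := Group.fg_iff.1 hG
  let ts : List G := l.map Prod.fst
  have hP : ∀ t : G, N ≤ (cz (ts.map fun s => t * s⁻¹) (ncl l)).1 := by
    intro t x hx
    have h1 := hl t x hx
    have h2 : (ts.map fun s => t * s⁻¹) = l.map (fun p => t * p.1⁻¹) := by
      simp only [ts, List.map_map]; rfl
    rw [h2]; exact h1
  have hXfin' : (X ∪ X⁻¹).Finite := hXfin.union hXfin.inv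
  let xs : List G := hXfin'.toFinset.toList
  have hxs : ∀ x, x ∈ xs ↔ x ∈ X ∪ X⁻¹ := by intro x; simp [xs]
  let ss : List G := 1 :: (xs.flatMap fun x => ts.map fun t => x * t)
  obtain ⟨K, L, hb', hL, hK, hss⟩ := bad_list ts ⟨N, hN⟩ (ncl l) hb hP ss
  have hss' : ∀ s ∈ ss, ∃ u ∈ ts, s * u⁻¹ ∈ Cen K L := by
    intro s hs
    obtain ⟨u, hu, hx⟩ := hss s hs
    refine ⟨u, hu, ?_⟩
    intro x hx'
    have := hx x hx' 1
    simpa using this
  let C := Cen K L
  have hfinq : Finite (G ⧸ C) := by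
    refine finite_quotient C X hX ts ?_ ?_
    · exact hss' 1 List.mem_cons_self
    · intro x hx t ht
      refine hss' (x * t) (List.mem_cons_of_mem _ ?_)
      rw [List.mem_flatMap]
      exact ⟨x, (hxs x).2 hx, List.mem_map.2 ⟨t, ht, rfl⟩⟩
  have hfi : C.FiniteIndex := Subgroup.finiteIndex_of_finite_quotient
  have hCfg : Group.FG C := Subgroup.fg_of_index_ne_zero C
  have hCl : Laws G0 C := h.trans (Laws.subgroup C)
  have hL2 := L.2
  obtain ⟨Y, hYfin, hYK, hY⟩ := hs.central_section hCfg hCl (K.1.subgroupOf C) (L.1.subgroupOf C)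
    (by
      intro x hx g
      exact g.2 _ hx)
  -- representatives of the finitely many cosets
  have hrep : ∀ q : G ⧸ C, ∃ y ∈ K.1, (∃ x ∈ K.1, (QuotientGroup.mk x : G ⧸ C) = q) →
      (QuotientGroup.mk y : G ⧸ C) = q := by
    intro q
    by_cases hq : ∃ x ∈ K.1, (QuotientGroup.mk x : G ⧸ C) = q
    · obtain ⟨x, hx, hxq⟩ := hq
      exact ⟨x, hx, fun _ => hxq⟩
    · exact ⟨1, K.1.one_mem, fun h => absurd h hq⟩
  choose r hrK hr using hrep
  refine hb'.2 ((C.subtype '' Y) ∪ Set.range r) ((hYfin.image _).union (Set.finite_range r)) ?_ ?_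
  · refine Set.union_subset ?_ ?_
    · rintro _ ⟨y, hy, rfl⟩
      exact hYK hy
    · rintro _ ⟨q, rfl⟩
      exact hrK q
  · intro x hx
    have h1 : (QuotientGroup.mk (r (QuotientGroup.mk x)) : G ⧸ C) = QuotientGroup.mk x :=
      hr _ ⟨x, hx, rfl⟩
    have h2 : (r (QuotientGroup.mk x))⁻¹ * x ∈ C := QuotientGroup.eq.1 h1
    have h3 : (r (QuotientGroup.mk x))⁻¹ * x ∈ K.1 := K.1.mul_mem (K.1.inv_mem (hrK _)) hx
    have h4 : (⟨(r (QuotientGroup.mk x))⁻¹ * x, h2⟩ : C) ∈ K.1.subgroupOf C := h3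
    have h5 := hY h4
    have h6 : (L.1.subgroupOf C ⊔ Subgroup.closure Y) ≤
        (L.1 ⊔ Subgroup.normalClosure ((C.subtype '' Y) ∪ Set.range r)).comap C.subtype := by
      refine sup_le ?_ ?_
      · intro z hz
        exact Subgroup.mem_sup_left hz
      · rw [Subgroup.closure_le]
        intro z hz
        refine Subgroup.mem_sup_right (Subgroup.subset_normalClosure ?_)
        exact Or.inl ⟨z, hz, rfl⟩
    have h7 : (r (QuotientGroup.mk x))⁻¹ * x ∈
        L.1 ⊔ Subgroup.normalClosure ((C.subtype '' Y) ∪ Set.range r) := h6 h5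
    have h8 : r (QuotientGroup.mk x) ∈
        L.1 ⊔ Subgroup.normalClosure ((C.subtype '' Y) ∪ Set.range r) :=
      Subgroup.mem_sup_right (Subgroup.subset_normalClosure (Or.inr ⟨_, rfl⟩))
    have h9 := Subgroup.mul_mem _ h8 h7
    rwa [mul_inv_cancel_left] at h9

end Pool.Agent.Lib.MP_82c744_al
end
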